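import Pool.Agent.H693.AG.Stage

/-!
# Iterating the stages: an almost stable element is close to a stable one
-/

namespace H693AG

open Finset Pointwise

variable {G L : Type*} [Group G] [Lattice L] [MulAction G L] {δ : L → ℤ}

theorem iterate [DecidableEq G] (hδ : IsRank G δ) {T : ℕ} (hT : (2 : ℝ) ^ 13 < T) {K : ℝ}
    (hK : 1 ≤ K) {A : Finset G} (hne : A.Nonempty) (hinv : A⁻¹ = A)
    (hcard : ∀ n : ℕ, (#(A ^ n) : ℝ) ≤ K ^ n * #A) {U : L} {ρ : ℝ} (hρ : 0 < ρ)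
    (hU : ∀ s ∈ A, (dst δ U (s • U) : ℝ) ≤ ρ) (i : ℕ) :
    ∃ S : Finset G, S ⊆ A ^ (2 ^ i) ∧
      (#A : ℝ) / (2 * K) ^ ((2 ^ (12 * T + 3)) ^ i) ≤ #S ∧
      ∃ U₁ : L, (dst δ U U₁ : ℝ) ≤ 5 * ρ * (1 - 1 / 2 ^ i) ∧
        ∀ s ∈ S, (dst δ U₁ (s • U₁) : ℝ) ≤ ρ / 2 ^ i := by
  have hApos : (0 : ℝ) < #A := by exact_mod_cast card_pos.2 hne
  have h2K : (1 : ℝ) ≤ 2 * K := by linarith
  have h2K0 : (0 : ℝ) < 2 * K := by linarith
  induction i with
  | zero =>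
    refine ⟨A, by simp, ?_, U, ?_, by simpa using hU⟩
    · exact div_le_self hApos.le (one_le_pow₀ h2K)
    · have : dst δ U U = 0 := by unfold dst; rw [inf_idem]; ring
      simp [this]
  | succ i ih =>
    obtain ⟨S, hS, hSc, U₁, hU₁, hSU⟩ := ih
    obtain ⟨S', hS', hSc', U₂, hU₂, hSU₂⟩ := stage hδ hT hK hne hinv hcard hS hSc
      (by positivity : (0 : ℝ) < ρ / 2 ^ i) hSU
    refine ⟨S', ?_, ?_, U₂, ?_, ?_⟩
    · rw [pow_succ, mul_comm]; exact hS'
    · refine le_trans ?_ hSc'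
      refine div_le_div_of_nonneg_left hApos.le (by positivity) (pow_le_pow_right₀ h2K ?_)
      set B := 2 ^ (12 * T + 1) with hB
      have hB4 : 2 ^ (12 * T + 3) = 4 * B := by rw [hB]; ring
      have hB1 : 1 ≤ B := Nat.one_le_two_pow
      rw [hB4, pow_succ]
      have h1 : 2 ^ i ≤ (4 * B) ^ i := Nat.pow_le_pow_left (by omega) i
      have h2 : 1 ≤ (4 * B) ^ i := Nat.one_le_pow _ _ (by omega)
      calc B * ((4 * B) ^ i + 2 ^ i + 1) ≤ B * (4 * (4 * B) ^ i) :=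
            Nat.mul_le_mul_left _ (by omega)
        _ = (4 * B) ^ i * (4 * B) := by ring
    · have h1 : (dst δ U U₂ : ℝ) ≤ dst δ U U₁ + dst δ U₁ U₂ := by
        exact_mod_cast dst_triangle hδ U U₁ U₂
      have h2 : 5 * ρ * (1 - 1 / 2 ^ (i + 1)) =
          5 * ρ * (1 - 1 / 2 ^ i) + 5 / 2 * (ρ / 2 ^ i) := by
        rw [pow_succ]; field_simp; ring
      rw [h2]; linarith
    · intro s hs
      have := hSU₂ s hs
      rw [pow_succ]
      calc (dst δ U₂ (s • U₂) : ℝ) ≤ ρ / 2 ^ i / 2 := this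
        _ = ρ / (2 ^ i * 2) := by rw [div_div]

/-- a subgroup of `G` that contains many elements of `A ^ n` contains many of `A ^ 2`. -/
theorem card_mul_card_le [DecidableEq G] (H : Subgroup G) [DecidablePred (· ∈ H)]
    {A : Finset G} (hinv : A⁻¹ = A) (n : ℕ) :
    #A * #((A ^ n).filter (· ∈ H)) ≤ #((A ^ 2).filter (· ∈ H)) * #(A ^ (n + 1)) := by
  rw [← card_product]
  refine card_le_mul_card_image_of_maps_to (f := fun p : G × G => p.1 * p.2) ?_ _ ?_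
  · rintro ⟨a, h⟩ hp
    obtain ⟨ha, hh⟩ := mem_product.1 hp
    rw [add_comm n 1, pow_add, pow_one]
    exact mul_mem_mul ha (mem_filter.1 hh).1
  · intro b _
    rcases ((A ×ˢ (A ^ n).filter (· ∈ H)).filter fun p : G × G => p.1 * p.2 = b).eq_empty_or_nonempty
      with he | ⟨⟨a₀, h₀⟩, hp₀⟩
    · rw [he]; simp
    · obtain ⟨hp1, hp2⟩ := mem_filter.1 hp₀
      obtain ⟨ha₀, hh₀⟩ := mem_product.1 hp1
      refine card_le_card_of_injOn (fun p => a₀⁻¹ * p.1) ?_ ?_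
      · rintro ⟨a, h⟩ hp
        obtain ⟨hq1, hq2⟩ := mem_filter.1 (mem_coe.1 hp)
        obtain ⟨ha, hh⟩ := mem_product.1 hq1
        refine mem_coe.2 (mem_filter.2 ⟨?_, ?_⟩)
        · rw [pow_two]
          refine mul_mem_mul ?_ ha
          rw [← hinv]
          exact inv_mem_inv ha₀
        · have h1 : a₀⁻¹ * a = h₀ * h⁻¹ := by
            have h2 : a₀ * h₀ = a * h := hp2.trans hq2.symm
            rw [inv_mul_eq_iff_eq_mul, ← mul_assoc, h2, mul_inv_cancel_right]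
          simp only
          rw [h1]
          exact H.mul_mem (mem_filter.1 hh₀).2 (H.inv_mem (mem_filter.1 hh).2)
      · rintro ⟨a, h⟩ hp ⟨a', h'⟩ hp' (he : a₀⁻¹ * a = a₀⁻¹ * a')
        have ha := mul_left_cancel he
        have h1 := (mem_filter.1 (mem_coe.1 hp)).2
        have h2 := (mem_filter.1 (mem_coe.1 hp')).2
        simp only at h1 h2
        rw [ha] at h1 ⊢
        rw [mul_left_cancel (h1.trans h2.symm)]

/-- **An approximate group that almost stabilises `U` has a large piece stabilising a close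
element.** -/
theorem almost_stable [DecidableEq G] (hδ : IsRank G δ) {T : ℕ} (hT : (2 : ℝ) ^ 13 < T) {K : ℝ}
    (hK : 1 ≤ K) {A : Finset G} (hne : A.Nonempty) (hinv : A⁻¹ = A)
    (hcard : ∀ n : ℕ, (#(A ^ n) : ℝ) ≤ K ^ n * #A) {U : L} {ρ : ℝ} (hρ : 0 < ρ) {D : ℕ}
    (hD : 1 ≤ D) (hρD : ρ ≤ D)
    (hU : ∀ s ∈ A, (dst δ U (s • U) : ℝ) ≤ ρ) :
    ∃ U' : L, (dst δ U U' : ℝ) ≤ 5 * ρ ∧ ∃ S : Finset G, S ⊆ A ^ 2 ∧ (∀ g ∈ S, g • U' = U') ∧
      (#(A ^ 2) : ℝ) / (2 * K) ^ ((2 * D) ^ (12 * T + 3) + 2 * D + 3) ≤ #S := by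
  classical
  have hApos : (0 : ℝ) < #A := by exact_mod_cast card_pos.2 hne
  have h2K : (1 : ℝ) ≤ 2 * K := by linarith
  have h2K0 : (0 : ℝ) < 2 * K := by linarith
  set I := Nat.log 2 D + 1 with hI
  have hDI : D < 2 ^ I := Nat.lt_pow_succ_log_self (by norm_num) D
  have hI2 : 2 ^ I ≤ 2 * D := by
    rw [hI, pow_succ, mul_comm]
    exact Nat.mul_le_mul_left _ (Nat.pow_log_le_self 2 (by omega))
  obtain ⟨S, hS, hSc, U', hU', hSU⟩ := iterate hδ hT hK hne hinv hcard hρ hU I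
  have hstab : ∀ s ∈ S, s • U' = U' := by
    intro s hs
    have h1 := hSU s hs
    have h2 : ρ / 2 ^ I < 1 := by
      rw [div_lt_one (by positivity)]
      refine hρD.trans_lt ?_
      exact_mod_cast hDI
    have h3 : dst δ U' (s • U') < 1 := by exact_mod_cast h1.trans_lt h2
    exact (eq_of_dst_eq_zero hδ (by omega)).symm
  refine ⟨U', ?_, (A ^ 2).filter (· ∈ MulAction.stabilizer G U'), filter_subset _ _,
    fun g hg => (mem_filter.1 hg).2, ?_⟩
  · refine hU'.trans ?_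
    have : (0 : ℝ) < 1 / 2 ^ I := by positivity
    nlinarith
  · have hcc := card_mul_card_le (MulAction.stabilizer G U') hinv (2 ^ I)
    set p := #((A ^ 2).filter (· ∈ MulAction.stabilizer G U')) with hp
    have h1 : S ⊆ (A ^ (2 ^ I)).filter (· ∈ MulAction.stabilizer G U') := fun s hs =>
      mem_filter.2 ⟨hS hs, hstab s hs⟩
    have h2 : (#S : ℝ) ≤ #((A ^ (2 ^ I)).filter (· ∈ MulAction.stabilizer G U')) := by
      exact_mod_cast card_le_card h1
    have h3 : (#A : ℝ) * #((A ^ (2 ^ I)).filter (· ∈ MulAction.stabilizer G U')) ≤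
        p * #(A ^ (2 ^ I + 1)) := by exact_mod_cast hcc
    have h4 := hcard (2 ^ I + 1)
    have h5 := hcard 2
    have hexp : (2 ^ (12 * T + 3)) ^ I ≤ (2 * D) ^ (12 * T + 3) := by
      rw [← pow_mul, mul_comm, pow_mul]
      exact Nat.pow_le_pow_left hI2 _
    have h6 : (#A : ℝ) / (2 * K) ^ ((2 * D) ^ (12 * T + 3)) ≤ #S := by
      refine le_trans ?_ hSc
      exact div_le_div_of_nonneg_left hApos.le (by positivity) (pow_le_pow_right₀ h2K hexp)
    have hKpow : K ^ (2 ^ I + 1) ≤ (2 * K) ^ (2 * D + 1) := by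
      calc K ^ (2 ^ I + 1) ≤ K ^ (2 * D + 1) := pow_le_pow_right₀ hK (by omega)
        _ ≤ (2 * K) ^ (2 * D + 1) := pow_le_pow_left₀ (by linarith) (by linarith) _
    have hppos : (0 : ℝ) ≤ p := Nat.cast_nonneg _
    -- `|A| * |A| / (2K)^e ≤ p * (2K)^(2D+1) * |A|`
    have h7 : (#A : ℝ) * (#A / (2 * K) ^ ((2 * D) ^ (12 * T + 3))) ≤
        p * ((2 * K) ^ (2 * D + 1) * #A) := by
      calc (#A : ℝ) * (#A / (2 * K) ^ ((2 * D) ^ (12 * T + 3)))
          ≤ #A * #((A ^ (2 ^ I)).filter (· ∈ MulAction.stabilizer G U')) :=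
            mul_le_mul_of_nonneg_left (h6.trans h2) hApos.le
        _ ≤ p * #(A ^ (2 ^ I + 1)) := h3
        _ ≤ p * (K ^ (2 ^ I + 1) * #A) := mul_le_mul_of_nonneg_left h4 hppos
        _ ≤ p * ((2 * K) ^ (2 * D + 1) * #A) :=
            mul_le_mul_of_nonneg_left (mul_le_mul_of_nonneg_right hKpow hApos.le) hppos
    have h8 : (#A : ℝ) / (2 * K) ^ ((2 * D) ^ (12 * T + 3)) ≤ p * (2 * K) ^ (2 * D + 1) := by
      refine le_of_mul_le_mul_left ?_ hApos
      calc (#A : ℝ) * (#A / (2 * K) ^ ((2 * D) ^ (12 * T + 3)))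
          ≤ p * ((2 * K) ^ (2 * D + 1) * #A) := h7
        _ = #A * (p * (2 * K) ^ (2 * D + 1)) := by ring
    rw [div_le_iff₀ (by positivity)] at h8 ⊢
    have h9 : K ^ 2 ≤ (2 * K) ^ 2 := pow_le_pow_left₀ (by linarith) (by linarith) 2
    calc (#(A ^ 2) : ℝ) ≤ K ^ 2 * #A := h5
      _ ≤ (2 * K) ^ 2 * #A := mul_le_mul_of_nonneg_right h9 hApos.le
      _ ≤ (2 * K) ^ 2 * (p * (2 * K) ^ (2 * D + 1) * (2 * K) ^ ((2 * D) ^ (12 * T + 3))) :=
          mul_le_mul_of_nonneg_left h8 (by positivity)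
      _ = p * (2 * K) ^ ((2 * D) ^ (12 * T + 3) + 2 * D + 3) := by
          rw [pow_add, pow_add, pow_add]; ring

end H693AG
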