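import Pool.Agent.H693.AG.Iterate

/-!
# Linear algebra: large eigenspaces and the twisted double
-/

namespace H693AG

open Module Pointwise Matrix

universe u

variable {F : Type u} [Field F] {d : ℕ}

/-- the eigenspace `ker (g - μ)` -/
abbrev eig (g : GL (Fin d) F) (μ : F) : Submodule F (Fin d → F) :=
  End.eigenspace (toLin' g.1) μ

theorem mem_eig {g : GL (Fin d) F} {μ : F} {v : Fin d → F} :
    v ∈ eig g μ ↔ g.1 *ᵥ v = μ • v := by
  rw [End.mem_eigenspace_iff, toLin'_apply]

/-- `μ` is an eigenvalue of `g` with an eigenspace of codimension at most `t d` -/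
def Big (t : ℝ) (g : GL (Fin d) F) (μ : F) : Prop := (1 - t) * d ≤ finrank F (eig g μ)

theorem finrank_inf_ge (P Q : Submodule F (Fin d → F)) :
    (finrank F P : ℝ) + finrank F Q ≤ d + finrank F (P ⊓ Q : Submodule F (Fin d → F)) := by
  have h1 := Submodule.finrank_sup_add_finrank_inf_eq P Q
  have h2 := Submodule.finrank_le (P ⊔ Q)
  rw [finrank_fin_fun] at h2
  exact_mod_cast (by omega : finrank F P + finrank F Q ≤
    d + finrank F (P ⊓ Q : Submodule F (Fin d → F)))

theorem Big.mul {s t : ℝ} {g h : GL (Fin d) F} {μ ν : F} (hg : Big s g μ) (hh : Big t h ν) :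
    Big (s + t) (g * h) (μ * ν) := by
  unfold Big at *
  have h1 := finrank_inf_ge (eig g μ) (eig h ν)
  have h2 : eig g μ ⊓ eig h ν ≤ eig (g * h) (μ * ν) := by
    rintro v ⟨hv1, hv2⟩
    have hv1' := mem_eig.1 hv1
    have hv2' := mem_eig.1 hv2
    rw [mem_eig, Units.val_mul, ← mulVec_mulVec, hv2', mulVec_smul, hv1', smul_smul, mul_comm]
  have h3 : (finrank F (eig g μ ⊓ eig h ν : Submodule F (Fin d → F)) : ℝ) ≤
      finrank F (eig (g * h) (μ * ν)) := by exact_mod_cast Submodule.finrank_mono h2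
  nlinarith

theorem Big.unique {s t : ℝ} {g : GL (Fin d) F} {μ ν : F} (hd : 1 ≤ d) (hst : s + t < 1)
    (hg : Big s g μ) (hh : Big t g ν) : μ = ν := by
  unfold Big at *
  have h1 := finrank_inf_ge (eig g μ) (eig g ν)
  have hd' : (1 : ℝ) ≤ d := by exact_mod_cast hd
  have h2 : (0 : ℝ) < finrank F (eig g μ ⊓ eig g ν : Submodule F (Fin d → F)) := by nlinarith
  have h3 : (eig g μ ⊓ eig g ν : Submodule F (Fin d → F)) ≠ ⊥ := by
    intro h
    rw [h, finrank_bot] at h2
    simp at h2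
  obtain ⟨v, hv, hv0⟩ := Submodule.exists_mem_ne_zero_of_ne_bot h3
  have h4 := mem_eig.1 hv.1
  have h5 := mem_eig.1 hv.2
  exact smul_left_injective F hv0 (h4.symm.trans h5)

theorem Big.ne_zero {s : ℝ} {g : GL (Fin d) F} {μ : F} (hd : 1 ≤ d) (hs : s < 1)
    (hg : Big s g μ) : μ ≠ 0 := by
  rintro rfl
  unfold Big at hg
  have hd' : (1 : ℝ) ≤ d := by exact_mod_cast hd
  have h2 : (0 : ℝ) < finrank F (eig g (0 : F)) := by nlinarith
  have h3 : eig g (0 : F) ≠ ⊥ := by
    intro h
    rw [h, finrank_bot] at h2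
    simp at h2
  obtain ⟨v, hv, hv0⟩ := Submodule.exists_mem_ne_zero_of_ne_bot h3
  have h4 := mem_eig.1 hv
  rw [zero_smul] at h4
  apply hv0
  have h5 : (g⁻¹ : GL (Fin d) F).1 *ᵥ (g.1 *ᵥ v) = v := by
    rw [mulVec_mulVec, ← Units.val_mul, inv_mul_cancel, Units.val_one, one_mulVec]
  rw [← h5, h4, mulVec_zero]

theorem Big.inv {s : ℝ} {g : GL (Fin d) F} {μ : F} (hμ : μ ≠ 0) (hg : Big s g μ) :
    Big s g⁻¹ μ⁻¹ := by
  unfold Big at *
  refine hg.trans ?_
  have h1 : eig g μ ≤ eig g⁻¹ μ⁻¹ := by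
    intro v hv
    have hv' := mem_eig.1 hv
    have h5 : (g⁻¹ : GL (Fin d) F).1 *ᵥ (g.1 *ᵥ v) = v := by
      rw [mulVec_mulVec, ← Units.val_mul, inv_mul_cancel, Units.val_one, one_mulVec]
    rw [mem_eig]
    rw [hv', mulVec_smul] at h5
    rw [← h5, smul_smul, inv_mul_cancel₀ hμ, one_smul, h5]
  exact_mod_cast Submodule.finrank_mono h1

theorem Big.one : Big 0 (1 : GL (Fin d) F) 1 := by
  unfold Big
  have : eig (1 : GL (Fin d) F) (1 : F) = ⊤ := by
    rw [eq_top_iff]
    intro v _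
    rw [mem_eig, Units.val_one, one_mulVec, one_smul]
  rw [this, finrank_top, finrank_fin_fun]
  simp

theorem Big.mono {s t : ℝ} {g : GL (Fin d) F} {μ : F} (hst : s ≤ t) (hg : Big s g μ) :
    Big t g μ := by
  unfold Big at *
  have hd' : (0 : ℝ) ≤ d := Nat.cast_nonneg d
  nlinarith

open Classical in
/-- the eigenvalue with an eigenspace of more than half the dimension (or `1`) -/
noncomputable def mu (g : GL (Fin d) F) : Fˣ :=
  if h : ∃ μ : Fˣ, ∃ t < (1 / 2 : ℝ), Big t g (μ : F) then h.choose else 1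

theorem mu_eq {t : ℝ} {g : GL (Fin d) F} {μ : Fˣ} (hd : 1 ≤ d) (ht : t < 1 / 2)
    (hg : Big t g (μ : F)) : mu g = μ := by
  have h : ∃ μ : Fˣ, ∃ t < (1 / 2 : ℝ), Big t g (μ : F) := ⟨μ, t, ht, hg⟩
  unfold mu
  rw [dif_pos h]
  obtain ⟨s, hs, hgs⟩ := h.choose_spec
  exact Units.ext (Big.unique hd (by linarith) hgs hg)

/-- the double space -/
abbrev EE (F : Type u) (d : ℕ) : Type u := (Fin d → F) × (Fin d → F)

/-- one element of the twisted action -/
def actE (p : Fˣ × GL (Fin d) F) : EE F d ≃ₗ[F] EE F d where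
  toFun x := ((p.1 : F) • x.1, p.2.1 *ᵥ x.2)
  map_add' x y := by simp [mulVec_add]
  map_smul' c x := by
    refine Prod.ext ?_ ?_
    · simp [smul_comm (p.1 : F) c]
    · simp [mulVec_smul]
  invFun x := ((p.1⁻¹ : Fˣ) • x.1, (p.2⁻¹ : GL (Fin d) F).1 *ᵥ x.2)
  left_inv x := by
    refine Prod.ext ?_ ?_
    · simp [Units.smul_def, smul_smul]
    · change (p.2⁻¹ : GL (Fin d) F).1 *ᵥ (p.2.1 *ᵥ x.2) = x.2
      rw [mulVec_mulVec, ← Units.val_mul, inv_mul_cancel, Units.val_one, one_mulVec]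
  right_inv x := by
    refine Prod.ext ?_ ?_
    · simp [Units.smul_def, smul_smul]
    · change p.2.1 *ᵥ ((p.2⁻¹ : GL (Fin d) F).1 *ᵥ x.2) = x.2
      rw [mulVec_mulVec, ← Units.val_mul, mul_inv_cancel, Units.val_one, one_mulVec]

/-- the twisted action of `Fˣ × GL_d(F)` on `F^d ⊕ F^d` -/
def act : Fˣ × GL (Fin d) F →* (EE F d ≃ₗ[F] EE F d) where
  toFun := actE
  map_one' := by
    refine LinearEquiv.ext fun x => ?_
    refine Prod.ext ?_ ?_
    · change ((1 : Fˣ) : F) • x.1 = x.1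
      simp
    · change (1 : GL (Fin d) F).1 *ᵥ x.2 = x.2
      rw [Units.val_one, one_mulVec]
  map_mul' p q := by
    refine LinearEquiv.ext fun x => ?_
    refine Prod.ext ?_ ?_
    · change ((p.1 * q.1 : Fˣ) : F) • x.1 = (p.1 : F) • (q.1 : F) • x.1
      rw [smul_smul, Units.val_mul]
    · change (p.2 * q.2 : GL (Fin d) F).1 *ᵥ x.2 = p.2.1 *ᵥ (q.2.1 *ᵥ x.2)
      rw [mulVec_mulVec, Units.val_mul]

theorem act_apply (u : Fˣ) (g : GL (Fin d) F) (x y : Fin d → F) :
    act (u, g) (x, y) = ((u : F) • x, g.1 *ᵥ y) := rfl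

theorem act_injective {u v : Fˣ} {g h : GL (Fin d) F} (he : act (u, g) = act (v, h)) : g = h := by
  apply Units.ext
  apply Matrix.toLin'.injective
  refine LinearMap.ext fun y => ?_
  rw [toLin'_apply, toLin'_apply]
  have h1 := congrArg (fun f => f ((0 : Fin d → F), y)) he
  simp only [act_apply] at h1
  exact (Prod.ext_iff.1 h1).2

/-- the diagonal embedding -/
def diagMap (F : Type u) [Field F] (d : ℕ) : (Fin d → F) →ₗ[F] EE F d :=
  LinearMap.prod LinearMap.id LinearMap.id

theorem diagMap_apply (v : Fin d → F) : diagMap F d v = (v, v) := rfl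

theorem diagMap_injective : Function.Injective (diagMap F d) := fun v w h =>
  (Prod.ext_iff.1 h).1

/-- the diagonal -/
def diag (F : Type u) [Field F] (d : ℕ) : Submodule F (EE F d) := LinearMap.range (diagMap F d)

/-- the dimension as an integer -/
noncomputable def dimZ (S : Submodule F (EE F d)) : ℤ := (finrank F S : ℤ)

theorem dimZ_diag : dimZ (diag F d) = d := by
  unfold dimZ diag
  rw [LinearMap.finrank_range_of_inj diagMap_injective, finrank_fin_fun]

theorem isRank_dim : IsRank (EE F d ≃ₗ[F] EE F d) (dimZ (F := F) (d := d)) where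
  mono x y h := by
    unfold dimZ
    exact_mod_cast Submodule.finrank_mono h
  modular x y := by
    unfold dimZ
    exact_mod_cast Submodule.finrank_sup_add_finrank_inf_eq x y
  inv g x := by
    unfold dimZ
    have : finrank F (g • x : Submodule F (EE F d)) = finrank F x :=
      LinearEquiv.finrank_map_eq g x
    exact_mod_cast this
  smul_inf g x y := by
    apply SetLike.coe_injective
    rw [Submodule.coe_pointwise_smul, Submodule.coe_inf, Submodule.coe_inf,
      Submodule.coe_pointwise_smul, Submodule.coe_pointwise_smul, Set.smul_set_inter]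
  eq_of_le x y h he := by
    unfold dimZ at he
    exact Submodule.eq_of_le_of_finrank_eq h (by exact_mod_cast he)

theorem dst_diag_le {t : ℝ} {g : GL (Fin d) F} {u : Fˣ} (hg : Big t g (u : F)) :
    (dst dimZ (diag F d) (act (u, g) • diag F d) : ℝ) ≤ 2 * t * d := by
  have h1 : (eig g (u : F)).map (diagMap F d) ≤ diag F d ⊓ act (u, g) • diag F d := by
    rintro _ ⟨v, hv, rfl⟩
    have hv' := mem_eig.1 hv
    refine ⟨⟨v, rfl⟩, ?_⟩
    rw [SetLike.mem_coe, Submodule.mem_smul_pointwise_iff_exists]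
    refine ⟨diagMap F d ((u⁻¹ : Fˣ) • v), ⟨_, rfl⟩, ?_⟩
    rw [diagMap_apply, diagMap_apply]
    change act (u, g) (_, _) = _
    rw [act_apply]
    refine Prod.ext ?_ ?_
    · simp [Units.smul_def]
    · simp only [Units.smul_def, mulVec_smul, hv', smul_smul]
      simp
  have h2 : finrank F (eig g (u : F)) ≤
      finrank F (diag F d ⊓ act (u, g) • diag F d : Submodule F (EE F d)) := by
    rw [LinearEquiv.finrank_eq (Submodule.equivMapOfInjective _ diagMap_injective (eig g (u : F)))]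
    exact Submodule.finrank_mono h1
  have h3 : dst dimZ (diag F d) (act (u, g) • diag F d) =
      2 * d - 2 * (finrank F (diag F d ⊓ act (u, g) • diag F d : Submodule F (EE F d)) : ℤ) := by
    unfold dst
    rw [isRank_dim.inv, dimZ_diag]
    unfold dimZ
    ring
  rw [h3]
  unfold Big at hg
  have h4 : (finrank F (eig g (u : F)) : ℝ) ≤
      finrank F (diag F d ⊓ act (u, g) • diag F d : Submodule F (EE F d)) := by
    exact_mod_cast h2
  push_cast
  nlinarith

/-- the subspaces `V`, `W` attached to a subspace close to the diagonal -/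
theorem dim_VW (U' : Submodule F (EE F d)) :
    (d : ℝ) - dst dimZ (diag F d) U' ≤ (finrank F (U'.comap (diagMap F d)) : ℝ) -
      finrank F (U'.comap (LinearMap.inr F (Fin d → F) (Fin d → F))) := by
  set V := U'.comap (diagMap F d) with hV
  set W := U'.comap (LinearMap.inr F (Fin d → F) (Fin d → F)) with hW
  have h1 : diag F d ⊓ U' ≤ V.map (diagMap F d) := by
    rintro _ ⟨⟨v, rfl⟩, hv⟩
    exact ⟨v, hv, rfl⟩
  have h2 : finrank F (diag F d ⊓ U' : Submodule F (EE F d)) ≤ finrank F V :=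
    (Submodule.finrank_mono h1).trans (Submodule.finrank_map_le _ _)
  have h3 : (W.map (LinearMap.inr F (Fin d → F) (Fin d → F))) ⊓ (diag F d ⊓ U') = ⊥ := by
    rw [eq_bot_iff]
    rintro _ ⟨⟨w, hw, rfl⟩, ⟨v, hv⟩, -⟩
    rw [diagMap_apply] at hv
    have h4 := Prod.ext_iff.1 hv
    simp only [LinearMap.inr_apply] at h4
    rw [Submodule.mem_bot]
    rw [LinearMap.inr_apply, ← h4.2, h4.1]
    rfl
  have h5 : (W.map (LinearMap.inr F (Fin d → F) (Fin d → F))) ⊔ (diag F d ⊓ U') ≤ U' := by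
    refine sup_le ?_ inf_le_right
    rintro _ ⟨w, hw, rfl⟩
    exact hw
  have h6 := Submodule.finrank_sup_add_finrank_inf_eq
    (W.map (LinearMap.inr F (Fin d → F) (Fin d → F))) (diag F d ⊓ U')
  rw [h3, finrank_bot] at h6
  have h7 := Submodule.finrank_mono h5
  have h8 : finrank F (W.map (LinearMap.inr F (Fin d → F) (Fin d → F))) = finrank F W :=
    (LinearEquiv.finrank_eq (Submodule.equivMapOfInjective _ LinearMap.inr_injective _)).symm
  have h9 : dst dimZ (diag F d) U' = d + (finrank F U' : ℤ) -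
      2 * (finrank F (diag F d ⊓ U' : Submodule F (EE F d)) : ℤ) := by
    unfold dst
    rw [dimZ_diag]
    unfold dimZ
    ring
  have h10 : (d : ℤ) - dst dimZ (diag F d) U' ≤ (finrank F V : ℤ) - finrank F W := by
    have key : ∀ a b c e s : ℕ, b ≤ c → s + 0 = e + b → s ≤ a →
        (d : ℤ) - (d + (a : ℤ) - 2 * (b : ℤ)) ≤ (c : ℤ) - e := by intros; omega
    rw [h9]
    rw [h8] at h6
    exact key _ _ _ _ _ h2 h6 h7
  exact_mod_cast h10

theorem stab_VW {U' : Submodule F (EE F d)} {u : Fˣ} {g : GL (Fin d) F}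
    (h : act (u, g) • U' = U') (v : Fin d → F)
    (hv : v ∈ U'.comap (LinearMap.inr F (Fin d → F) (Fin d → F)) ⊔ U'.comap (diagMap F d)) :
    g.1 *ᵥ v - (u : F) • v ∈ U'.comap (LinearMap.inr F (Fin d → F) (Fin d → F)) := by
  have key : ∀ x y : Fin d → F, ((x, y) : EE F d) ∈ U' →
      (((u : F) • x, g.1 *ᵥ y) : EE F d) ∈ U' := by
    intro x y hxy
    have h1 : act (u, g) • ((x, y) : EE F d) ∈ act (u, g) • U' :=
      Submodule.smul_mem_pointwise_smul _ _ _ hxy
    rw [h] at h1
    change act (u, g) (x, y) ∈ U' at h1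
    rwa [act_apply] at h1
  obtain ⟨w, hw, v', hv', rfl⟩ := Submodule.mem_sup.1 hv
  rw [Submodule.mem_comap, LinearMap.inr_apply] at hw ⊢
  rw [Submodule.mem_comap, diagMap_apply] at hv'
  have h1 := key _ _ hw
  have h2 := key _ _ hv'
  have h3 := U'.smul_mem (u : F) hv'
  have h4 := U'.smul_mem (u : F) hw
  have h5 := U'.sub_mem (U'.add_mem h1 h2) (U'.add_mem h3 h4)
  convert h5 using 1
  refine Prod.ext ?_ ?_
  · simp
  · simp [mulVec_add, smul_add]
    abel

end H693AG
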