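import Mathlib

/-!
# Almost stable elements of a modular lattice under an approximate group

A group `G` acts on a lattice `L` with an invariant rank function `δ` (dimension of subspaces).
-/

namespace H693AG

open Finset Pointwise

/-- An invariant modular rank function on a lattice with an action of a group. -/
structure IsRank (G : Type*) {L : Type*} [Group G] [Lattice L] [MulAction G L] (δ : L → ℤ) :
    Prop where
  mono : ∀ x y, x ≤ y → δ x ≤ δ y
  modular : ∀ x y, δ (x ⊔ y) + δ (x ⊓ y) = δ x + δ y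
  inv : ∀ (g : G) (x : L), δ (g • x) = δ x
  smul_inf : ∀ (g : G) (x y : L), g • (x ⊓ y) = (g • x) ⊓ (g • y)
  eq_of_le : ∀ x y, x ≤ y → δ x = δ y → x = y

/-- The distance of two elements of a lattice with rank function. -/
def dst {L : Type*} [Lattice L] (δ : L → ℤ) (x y : L) : ℤ := δ x + δ y - 2 * δ (x ⊓ y)

variable {G L : Type*} [Group G] [Lattice L] [MulAction G L] {δ : L → ℤ}

theorem dst_comm (x y : L) : dst δ x y = dst δ y x := by
  unfold dst; rw [inf_comm]; ring

theorem dst_nonneg (h : IsRank G δ) (x y : L) : 0 ≤ dst δ x y := by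
  have h1 := h.mono _ _ (inf_le_left : x ⊓ y ≤ x)
  have h2 := h.mono _ _ (inf_le_right : x ⊓ y ≤ y)
  unfold dst; omega

theorem sub_le_dst (h : IsRank G δ) (x y : L) : δ x - δ y ≤ dst δ x y := by
  have h2 := h.mono _ _ (inf_le_right : x ⊓ y ≤ y)
  unfold dst; omega

theorem dst_triangle (h : IsRank G δ) (x y z : L) : dst δ x z ≤ dst δ x y + dst δ y z := by
  have h1 := h.modular (x ⊓ y) (y ⊓ z)
  have h2 := h.mono ((x ⊓ y) ⊔ (y ⊓ z)) y (sup_le inf_le_right inf_le_left)
  have h3 := h.mono ((x ⊓ y) ⊓ (y ⊓ z)) (x ⊓ z)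
    (le_inf (inf_le_left.trans inf_le_left) (inf_le_right.trans inf_le_right))
  unfold dst; omega

theorem dst_smul (h : IsRank G δ) (g : G) (x y : L) : dst δ (g • x) (g • y) = dst δ x y := by
  unfold dst; rw [← h.smul_inf, h.inv, h.inv, h.inv]

theorem dst_submod (h : IsRank G δ) (y y' z : L) :
    dst δ (y ⊓ y') z + dst δ (y ⊔ y') z ≤ dst δ y z + dst δ y' z := by
  have h1 := h.modular y y'
  have h2 := h.modular (y ⊓ z) (y' ⊓ z)
  have h3 := h.mono ((y ⊓ z) ⊔ (y' ⊓ z)) ((y ⊔ y') ⊓ z)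
    (sup_le (inf_le_inf_right _ le_sup_left) (inf_le_inf_right _ le_sup_right))
  have h4 : (y ⊓ z) ⊓ (y' ⊓ z) = (y ⊓ y') ⊓ z := by
    rw [inf_inf_inf_comm, inf_idem]
  rw [h4] at h2
  unfold dst; omega

theorem eq_of_dst_eq_zero (h : IsRank G δ) {x y : L} (h0 : dst δ x y ≤ 0) : x = y := by
  have h1 := h.mono _ _ (inf_le_left : x ⊓ y ≤ x)
  have h2 := h.mono _ _ (inf_le_right : x ⊓ y ≤ y)
  unfold dst at h0
  have h3 := h.eq_of_le _ _ (inf_le_left : x ⊓ y ≤ x) (by omega)
  have h4 := h.eq_of_le _ _ (inf_le_right : x ⊓ y ≤ y) (by omega)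
  rw [← h3, h4]

/-- the elements of `S` that lie in `h S` -/
def pop [DecidableEq G] (S : Finset G) (h : G) : Finset G := S.filter fun s => h⁻¹ * s ∈ S

theorem card_popular [DecidableEq G] {S T : Finset G} (hne : S.Nonempty)
    (hT : ∀ s ∈ S, ∀ s' ∈ S, s * s'⁻¹ ∈ T) {θ : ℝ}
    (hθ : 2 * θ * #T ≤ (#S : ℝ) ^ 2) :
    (#S : ℝ) ≤ 2 * #(T.filter fun h => θ ≤ #(pop S h)) := by
  classical
  have hcount : #S * #S = ∑ h ∈ T, #(pop S h) := by
    rw [← card_product, card_eq_sum_card_fiberwise (f := fun p : G × G => p.1 * p.2⁻¹) (t := T)]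
    · refine sum_congr rfl fun h _ => ?_
      refine card_bij (fun p _ => p.1) ?_ ?_ ?_
      · rintro ⟨s, s'⟩ hp
        simp only [mem_filter, mem_product] at hp
        obtain ⟨⟨h1, h2⟩, h3⟩ := hp
        simp only [pop, mem_filter]
        refine ⟨h1, ?_⟩
        rw [← h3]; simpa using h2
      · rintro ⟨s, s'⟩ hp ⟨t, t'⟩ hq (he : s = t)
        simp only [mem_filter, mem_product] at hp hq
        have : s'⁻¹ = t'⁻¹ := by
          have h5 := hp.2.trans hq.2.symm
          rw [he] at h5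
          exact mul_left_cancel h5
        rw [he, inv_injective this]
      · intro s hs
        simp only [pop, mem_filter] at hs
        exact ⟨(s, h⁻¹ * s), by simp [hs.1, hs.2], rfl⟩
    · rintro ⟨s, s'⟩ hp
      have hp' := mem_product.1 (mem_coe.1 hp)
      exact mem_coe.2 (hT s hp'.1 s' hp'.2)
  have hpos : (0 : ℝ) < #S := by exact_mod_cast card_pos.2 hne
  have hsplit := sum_filter_add_sum_filter_not T (fun h => θ ≤ #(pop S h))
    (fun h => (#(pop S h) : ℝ))
  have h1 : ∑ h ∈ T.filter (fun h => θ ≤ #(pop S h)), (#(pop S h) : ℝ) ≤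
      #(T.filter fun h => θ ≤ #(pop S h)) * #S := by
    rw [← nsmul_eq_mul]
    refine sum_le_card_nsmul _ _ _ fun h _ => ?_
    exact_mod_cast card_le_card (filter_subset _ _)
  have h2 : ∑ h ∈ T.filter (fun h => ¬ θ ≤ #(pop S h)), (#(pop S h) : ℝ) ≤ #T * max θ 0 := by
    have h3 : ∑ h ∈ T.filter (fun h => ¬ θ ≤ #(pop S h)), (#(pop S h) : ℝ) ≤
        #(T.filter (fun h => ¬ θ ≤ #(pop S h))) * max θ 0 := by
      rw [← nsmul_eq_mul]
      refine sum_le_card_nsmul _ _ _ fun h hh => ?_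
      exact (not_le.1 (mem_filter.1 hh).2).le.trans (le_max_left _ _)
    refine h3.trans (mul_le_mul_of_nonneg_right ?_ (le_max_right _ _))
    exact_mod_cast card_le_card (filter_subset _ _)
  have h4 : (#S : ℝ) * #S = ∑ h ∈ T, (#(pop S h) : ℝ) := by exact_mod_cast hcount
  have h5 : (#T : ℝ) * max θ 0 ≤ (#S : ℝ) ^ 2 / 2 := by
    rcases le_total θ 0 with h | h
    · rw [max_eq_right h, mul_zero]; positivity
    · rw [max_eq_left h]; linarith
  have h6 : (#S : ℝ) * #S ≤ #(T.filter fun h => θ ≤ #(pop S h)) * #S + (#S : ℝ) ^ 2 / 2 := by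
    rw [h4, ← hsplit]; linarith
  have h7 : (#S : ℝ) * #S ≤ (2 * #(T.filter fun h => θ ≤ #(pop S h))) * #S := by nlinarith
  exact le_of_mul_le_mul_right h7 hpos

end H693AG
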