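import Pool.Agent.H693.AG.Rank

/-!
# One stage: halving the distance
-/

namespace H693AG

open Finset Pointwise

variable {G L : Type*} [Group G] [Lattice L] [MulAction G L] {δ : L → ℤ}

theorem greedy [DecidableEq G] (hδ : IsRank G δ) {U : L} {S : Finset G} {m : ℕ} {e₀ : ℝ}
    (J : ℕ) {N : ℕ → ℝ} (hNpos : ∀ i, 0 < N i) (hNanti : Antitone N)
    (hm : ∀ (Y : L) (S' : Finset G), S' ⊆ S → (∀ s ∈ S', dst δ Y (s • U) < m) →
      (#S' : ℝ) < N J)
    (h0 : ∃ S' : Finset G, S' ⊆ S ∧ N 0 ≤ #S' ∧ ∃ Y : L,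
      ∀ s ∈ S', (dst δ Y (s • U) : ℝ) ≤ m + e₀) (ε' : ℝ) :
    ∀ j ≤ J,
      (∃ i < j, ∃ S' : Finset G, S' ⊆ S ∧ N i ≤ #S' ∧ ∃ Y : L,
        (∀ s ∈ S', (dst δ Y (s • U) : ℝ) ≤ m + 2 ^ i * e₀) ∧
        ∀ h : G, 2 * N (i + 1) ≤ #(pop S' h) → (dst δ (h • Y) Y : ℝ) < 2 * ε') ∨
      (∃ S' : Finset G, S' ⊆ S ∧ N j ≤ #S' ∧ ∃ Y : L,
        (∀ s ∈ S', (dst δ Y (s • U) : ℝ) ≤ m + 2 ^ j * e₀) ∧
        (δ Y : ℝ) ≤ δ U + m + e₀ - j * ε') := by
  intro j
  induction j with
  | zero =>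
    intro _
    right
    obtain ⟨S', hS', hN, Y, hY⟩ := h0
    refine ⟨S', hS', hN, Y, by simpa using hY, ?_⟩
    have hne : S'.Nonempty := by
      rw [← card_pos]
      have := (hNpos 0).trans_le hN
      exact_mod_cast this
    obtain ⟨s, hs⟩ := hne
    have h1 := sub_le_dst hδ Y (s • U)
    rw [hδ.inv] at h1
    have h2 : (δ Y : ℝ) - δ U ≤ dst δ Y (s • U) := by exact_mod_cast h1
    have h3 := hY s hs
    simp only [Nat.cast_zero, zero_mul, sub_zero]
    linarith
  | succ j ih =>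
    intro hj
    rcases ih (by omega) with ⟨i, hi, h⟩ | ⟨S', hS', hN, Y, hY, hδY⟩
    · exact Or.inl ⟨i, by omega, h⟩
    · by_cases hstop : ∀ h : G, 2 * N (j + 1) ≤ #(pop S' h) → (dst δ (h • Y) Y : ℝ) < 2 * ε'
      · exact Or.inl ⟨j, by omega, S', hS', hN, Y, hY, hstop⟩
      · right
        push Not at hstop
        obtain ⟨h, hpop, hd⟩ := hstop
        have hsub : pop S' h ⊆ S' := filter_subset _ _
        refine ⟨(pop S' h).filter fun s => (m : ℤ) ≤ dst δ (Y ⊔ h • Y) (s • U),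
          (filter_subset _ _).trans (hsub.trans hS'), ?_, Y ⊓ h • Y, ?_, ?_⟩
        · have h1 := hm (Y ⊔ h • Y)
            ((pop S' h).filter fun s => ¬ (m : ℤ) ≤ dst δ (Y ⊔ h • Y) (s • U))
            ((filter_subset _ _).trans (hsub.trans hS'))
            (fun s hs => not_le.1 (mem_filter.1 hs).2)
          have h2 := card_filter_add_card_filter_not (s := pop S' h)
            (fun s => (m : ℤ) ≤ dst δ (Y ⊔ h • Y) (s • U))
          have h3 : (#(pop S' h) : ℝ) =
              #((pop S' h).filter fun s => (m : ℤ) ≤ dst δ (Y ⊔ h • Y) (s • U)) +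
              #((pop S' h).filter fun s => ¬ (m : ℤ) ≤ dst δ (Y ⊔ h • Y) (s • U)) := by
            exact_mod_cast h2.symm
          have h4 := hNanti hj
          linarith
        · intro s hs
          obtain ⟨hs1, hs2⟩ := mem_filter.1 hs
          obtain ⟨hs3, hs4⟩ := mem_filter.1 hs1
          have h1 := dst_submod hδ Y (h • Y) (s • U)
          have h2 : dst δ (h • Y) (s • U) = dst δ Y ((h⁻¹ * s) • U) := by
            rw [← dst_smul hδ h⁻¹ (h • Y) (s • U), inv_smul_smul, smul_smul]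
          rw [h2] at h1
          have h3 : (dst δ (Y ⊓ h • Y) (s • U) : ℝ) + dst δ (Y ⊔ h • Y) (s • U) ≤
              dst δ Y (s • U) + dst δ Y ((h⁻¹ * s) • U) := by exact_mod_cast h1
          have h4 := hY s hs3
          have h5 := hY _ hs4
          have h6 : (m : ℝ) ≤ dst δ (Y ⊔ h • Y) (s • U) := by exact_mod_cast hs2
          rw [pow_succ]
          linarith
        · have h1 : (dst δ (h • Y) Y : ℝ) = 2 * (δ Y - δ (Y ⊓ h • Y)) := by
            have : dst δ (h • Y) Y = 2 * (δ Y - δ (Y ⊓ h • Y)) := by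
              unfold dst
              rw [hδ.inv, inf_comm]; ring
            rw [this]; push_cast; ring
          push_cast
          linarith

theorem pigeon (μ : ℕ → ℕ) (T : ℕ) {r ε : ℝ} (h0 : (μ 0 : ℝ) ≤ r) (hT : r < T * ε) :
    ∃ k < T, (μ k : ℝ) ≤ μ (k + 1) + ε := by
  by_contra hcon
  push Not at hcon
  have key : ∀ k ≤ T, (μ k : ℝ) + k * ε ≤ μ 0 := by
    intro k
    induction k with
    | zero => intro _; simp
    | succ k ih =>
      intro hk
      have h1 := hcon k (by omega)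
      have h2 := ih (by omega)
      push_cast
      linarith
  have h1 := key T le_rfl
  have h2 : (0 : ℝ) ≤ μ T := Nat.cast_nonneg _
  linarith

/-- the exponents of the thresholds -/
def expo (n a : ℕ) : ℕ → ℕ
  | 0 => a
  | t + 1 => 2 * expo n a t + (2 * n + 2)

theorem expo_eq (n a t : ℕ) : expo n a t + (2 * n + 2) = 2 ^ t * (a + 2 * n + 2) := by
  induction t with
  | zero => simp [expo]; ring
  | succ t ih =>
    rw [expo, pow_succ, mul_assoc, mul_comm 2 (a + 2 * n + 2), ← mul_assoc, ← ih]; ring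

theorem expo_mono (n a : ℕ) : Monotone (expo n a) :=
  monotone_nat_of_le_succ fun t => by rw [expo]; omega

theorem stage [DecidableEq G] (hδ : IsRank G δ) {T : ℕ} (hT : (2 : ℝ) ^ 13 < T) {K : ℝ}
    (hK : 1 ≤ K) {A : Finset G} (hne : A.Nonempty) (hinv : A⁻¹ = A)
    (hcard : ∀ n : ℕ, (#(A ^ n) : ℝ) ≤ K ^ n * #A) {n a : ℕ} {S : Finset G} (hS : S ⊆ A ^ n)
    (hSc : (#A : ℝ) / (2 * K) ^ a ≤ #S) {U : L} {r : ℝ} (hr : 0 < r)
    (hU : ∀ s ∈ S, (dst δ U (s • U) : ℝ) ≤ r) :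
    ∃ S₁ : Finset G, S₁ ⊆ A ^ (2 * n) ∧
      (#A : ℝ) / (2 * K) ^ (2 ^ (12 * T + 1) * (a + n + 1)) ≤ #S₁ ∧
      ∃ U₁ : L, (dst δ U U₁ : ℝ) ≤ 5 / 2 * r ∧ ∀ s ∈ S₁, (dst δ U₁ (s • U₁) : ℝ) ≤ r / 2 := by
  classical
  have hApos : (0 : ℝ) < #A := by exact_mod_cast card_pos.2 hne
  have h2K : (1 : ℝ) ≤ 2 * K := by linarith
  have h2K0 : (0 : ℝ) < 2 * K := by linarith
  set N : ℕ → ℝ := fun t => (#A : ℝ) / (2 * K) ^ expo n a t with hNdef
  have hNpos : ∀ i, 0 < N i := fun i => div_pos hApos (pow_pos h2K0 _)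
  have hNanti : Antitone N := by
    intro i j hij
    exact div_le_div_of_nonneg_left hApos.le (pow_pos h2K0 _)
      (pow_le_pow_right₀ h2K (expo_mono n a hij))
  have hN0 : N 0 ≤ #S := hSc
  let P : ℕ → ℕ → Prop := fun k μ => ∃ S' : Finset G, S' ⊆ S ∧ N (12 * k) ≤ #S' ∧
    ∃ Y : L, ∀ s ∈ S', dst δ Y (s • U) ≤ μ
  have hPr : ∀ k, P k ⌊r⌋₊ := by
    intro k
    refine ⟨S, subset_rfl, (hNanti (Nat.zero_le _)).trans hN0, U, fun s hs => ?_⟩
    have h1 := hU s hs
    have h2 : dst δ U (s • U) ≤ ⌊r⌋ := Int.le_floor.2 h1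
    rwa [← Int.natCast_floor_eq_floor hr.le] at h2
  let μ : ℕ → ℕ := fun k => sInf {x | P k x}
  have hμmem : ∀ k, P k (μ k) := fun k => Nat.sInf_mem (s := {x | P k x}) ⟨_, hPr k⟩
  have hμle : ∀ k x, P k x → μ k ≤ x := fun k x hx => Nat.sInf_le hx
  have hμr : ∀ k, (μ k : ℝ) ≤ r := fun k =>
    le_trans (by exact_mod_cast hμle k _ (hPr k)) (Nat.floor_le hr.le)
  obtain ⟨k, hkT, hk⟩ := pigeon μ T (r := r) (ε := r / 2 ^ 13) (hμr 0) (by
    rw [mul_div_assoc', lt_div_iff₀ (by positivity)]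
    nlinarith)
  obtain ⟨S0, hS0, hS0N, Y0, hY0⟩ := hμmem k
  have hN'pos : ∀ i, 0 < (fun j => N (12 * k + j)) i := fun i => hNpos _
  have hN'anti : Antitone (fun j => N (12 * k + j)) := fun i j hij => hNanti (by omega)
  have hmain := greedy (N := fun j => N (12 * k + j)) hδ (U := U) (S := S) (m := μ (k + 1))
    (e₀ := r / 2 ^ 13) 12 hN'pos hN'anti (by
      intro Y S' hS' hlt
      by_contra hcon
      have hcon := not_lt.1 hcon
      have hpos := (hN'pos 12).trans_le hcon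
      have hneS' : S'.Nonempty := by
        rw [← card_pos]; exact_mod_cast hpos
      obtain ⟨s, hs⟩ := hneS'
      have h1 := hlt s hs
      have h2 := dst_nonneg hδ Y (s • U)
      have h3 : 1 ≤ μ (k + 1) := by omega
      have h4 := hμle (k + 1) (μ (k + 1) - 1) ⟨S', hS', hcon, Y, fun s hs => by
        have := hlt s hs
        push_cast [Nat.cast_sub h3]
        omega⟩
      omega) ⟨S0, hS0, hS0N, Y0, fun s hs => by
        have h1 : (dst δ Y0 (s • U) : ℝ) ≤ μ k := by exact_mod_cast hY0 s hs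
        linarith⟩ (r / 4) 12 le_rfl
  have hmr := hμr (k + 1)
  rcases hmain with ⟨i, hi, S', hS', hN', Y, hY, hpop⟩ | ⟨S', hS', hN', Y, hY, hδY⟩
  · have hneS' : S'.Nonempty := by
      rw [← card_pos]; exact_mod_cast (hNpos _).trans_le hN'
    have hdY : ∀ s ∈ S', (dst δ Y (s • U) : ℝ) ≤ 3 / 2 * r := by
      intro s hs
      have h1 := hY s hs
      have h2 : (2 : ℝ) ^ i ≤ 2 ^ 12 := pow_le_pow_right₀ (by norm_num) (by omega)
      have h3 : (2 : ℝ) ^ i * (r / 2 ^ 13) ≤ 2 ^ 12 * (r / 2 ^ 13) :=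
        mul_le_mul_of_nonneg_right h2 (by positivity)
      have h4 : (2 : ℝ) ^ 12 * (r / 2 ^ 13) = r / 2 := by ring
      linarith
    have hSinv : ∀ s ∈ S', ∀ s' ∈ S', s * s'⁻¹ ∈ A ^ (2 * n) := by
      intro s hs s' hs'
      rw [two_mul, pow_add]
      refine mul_mem_mul (hS (hS' hs)) ?_
      have h1 : (A ^ n)⁻¹ = A ^ n := by rw [← inv_pow, hinv]
      rw [← h1]
      exact inv_mem_inv (hS (hS' hs'))
    have hthr : 2 * (2 * N (12 * k + (i + 1))) * #(A ^ (2 * n)) ≤ (#S' : ℝ) ^ 2 := by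
      have h1 : (0 : ℝ) < N (12 * k + i) := hNpos _
      have h2 : (N (12 * k + i)) ^ 2 ≤ (#S' : ℝ) ^ 2 := pow_le_pow_left₀ h1.le hN' 2
      refine le_trans ?_ h2
      have h3 := hcard (2 * n)
      have h4 : N (12 * k + (i + 1)) =
          (#A : ℝ) / ((2 * K) ^ (2 * expo n a (12 * k + i)) * (2 * K) ^ (2 * n + 2)) := by
        rw [← pow_add]
        rfl
      have h5 : (N (12 * k + i)) ^ 2 = (#A : ℝ) ^ 2 / (2 * K) ^ (2 * expo n a (12 * k + i)) := by
        simp only [hNdef]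
        rw [div_pow, ← pow_mul, mul_comm (expo _ _ _) 2]
      rw [h4, h5]
      set D := (2 * K) ^ (2 * expo n a (12 * k + i)) with hD
      have hDpos : 0 < D := pow_pos h2K0 _
      have h6 : 4 * K ^ (2 * n) ≤ (2 * K) ^ (2 * n + 2) := by
        have h7 : (2 * K) ^ (2 * n + 2) = 4 * K ^ (2 * n) * (2 ^ (2 * n) * K ^ 2) := by
          rw [mul_pow, pow_add, pow_add]; ring
        rw [h7]
        refine le_mul_of_one_le_right (by positivity) ?_
        exact one_le_mul_of_one_le_of_one_le (one_le_pow₀ (by norm_num)) (one_le_pow₀ hK)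
      have h8 : (0 : ℝ) < (2 * K) ^ (2 * n + 2) := pow_pos h2K0 _
      have h9 : 2 * (2 * ((#A : ℝ) / (D * (2 * K) ^ (2 * n + 2)))) * #(A ^ (2 * n)) ≤
          2 * (2 * ((#A : ℝ) / (D * (2 * K) ^ (2 * n + 2)))) * (K ^ (2 * n) * #A) :=
        mul_le_mul_of_nonneg_left h3 (by positivity)
      refine h9.trans ?_
      have h10 : 2 * (2 * ((#A : ℝ) / (D * (2 * K) ^ (2 * n + 2)))) * (K ^ (2 * n) * #A) =
          (#A : ℝ) ^ 2 / D * (4 * K ^ (2 * n) / (2 * K) ^ (2 * n + 2)) := by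
        field_simp
        ring
      rw [h10]
      refine mul_le_of_le_one_right (by positivity) ?_
      rw [div_le_one h8]
      exact h6
    have hpopc := card_popular hneS' hSinv hthr
    refine ⟨(A ^ (2 * n)).filter fun h => 2 * N (12 * k + (i + 1)) ≤ #(pop S' h),
      filter_subset _ _, ?_, Y, ?_, ?_⟩
    · have h1 : N (12 * k + i) / 2 ≤
          #((A ^ (2 * n)).filter fun h => 2 * N (12 * k + (i + 1)) ≤ #(pop S' h)) := by
        have : N (12 * k + i) ≤ #S' := hN'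
        linarith
      refine le_trans ?_ h1
      have h2 : (#A : ℝ) / (2 * K) ^ (expo n a (12 * k + i) + 1) ≤ N (12 * k + i) / 2 := by
        simp only [hNdef]
        rw [div_div]
        refine div_le_div_of_nonneg_left hApos.le (by positivity) ?_
        rw [pow_succ]
        refine mul_le_mul_of_nonneg_left (by linarith) (by positivity)
      refine le_trans ?_ h2
      refine div_le_div_of_nonneg_left hApos.le (by positivity) (pow_le_pow_right₀ h2K ?_)
      have h3 := expo_mono n a (show 12 * k + i ≤ 12 * T by omega)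
      have h4 := expo_eq n a (12 * T)
      have h5 : 2 ^ (12 * T + 1) * (a + n + 1) = 2 ^ (12 * T) * (a + 2 * n + 2) +
          2 ^ (12 * T) * a := by rw [pow_succ]; ring
      rw [h5]
      omega
    · obtain ⟨s, hs⟩ := hneS'
      have h1 := dst_triangle hδ U (s • U) Y
      have h2 : (dst δ U Y : ℝ) ≤ dst δ U (s • U) + dst δ (s • U) Y := by exact_mod_cast h1
      have h3 := hU s (hS' hs)
      have h4 := hdY s hs
      rw [dst_comm] at h4
      linarith
    · intro h hh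
      have h1 := hpop h (mem_filter.1 hh).2
      rw [dst_comm] at h1
      linarith
  · exfalso
    have hneS' : S'.Nonempty := by
      rw [← card_pos]; exact_mod_cast (hNpos _).trans_le hN'
    obtain ⟨s, hs⟩ := hneS'
    have h1 := sub_le_dst hδ (s • U) Y
    rw [hδ.inv, dst_comm] at h1
    have h2 : (δ U : ℝ) - δ Y ≤ dst δ Y (s • U) := by exact_mod_cast h1
    have h3 := hY s hs
    have h4 : (2 : ℝ) ^ 12 * (r / 2 ^ 13) = r / 2 := by ring
    have h5 : r / 2 ^ 13 ≤ r / 4 := div_le_div_of_nonneg_left hr.le (by norm_num) (by norm_num)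
    push_cast at hδY
    linarith

end H693AG
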